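import Pool.Agent.W312.TP.Stm
import Pool.Agent.W312.TP.Mem

/-!
# Tree t-spanners of path graphs: a spanning tree from a solution (`CPL`)
-/

set_option autoImplicit false

namespace Pool.Agent.W103.TP

open Pool.Agent.NPC Pool.Agent.H673R2 Pool.Agent.H673R2.Ts Pool.Agent.W312.TP

/-- The level of an element. -/
def levE (t : ℕ) (τ : ℕ → Bool) (e : ℕ) : ℕ := if τ e = true then 1 else rr t

/-- The parent function. `G g` is the element to which the gadget `g` is attached. -/
def par (t p : ℕ) (τ : ℕ → Bool) (G : ℕ → ℕ) (x : ℕ) : ℕ :=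
  if x ≤ t then (if x < rr t then x + 1 else x - 1)
  else if x < nC t p then
    (if τ (x - (t + 1)) = true then rr t
     else if rr t = 2 then (if (x - (t + 1)) % 2 = 0 then x + 1 else x - 1)
     else if (x - (t + 1)) % 2 = 0 then hBase t p ((x - (t + 1)) / 2)
     else hBase t p ((x - (t + 1)) / 2) + (rr t - 3))
  else if x < nC t p + (rr t - 2) * p then
    (if τ (2 * ((x - nC t p) / (rr t - 2))) = true then
      (if (x - nC t p) % (rr t - 2) = 0 then el t (2 * ((x - nC t p) / (rr t - 2))) else x - 1)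
     else (if (x - nC t p) % (rr t - 2) = rr t - 3 then
      el t (2 * ((x - nC t p) / (rr t - 2)) + 1) else x + 1))
  else
    (if (x - (nC t p + (rr t - 2) * p)) % kk t = 0 then
      el t (G ((x - (nC t p + (rr t - 2) * p)) / kk t)) else x - 1)

/-- The levels. -/
def lev (t p : ℕ) (τ : ℕ → Bool) (G : ℕ → ℕ) (x : ℕ) : ℕ :=
  if x ≤ t then (x - rr t) + (rr t - x)
  else if x < nC t p then levE t τ (x - (t + 1))
  else if x < nC t p + (rr t - 2) * p then
    (if τ (2 * ((x - nC t p) / (rr t - 2))) = true then 2 + (x - nC t p) % (rr t - 2)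
     else rr t - 1 - (x - nC t p) % (rr t - 2))
  else levE t τ (G ((x - (nC t p + (rr t - 2) * p)) / kk t)) + 1 +
    (x - (nC t p + (rr t - 2) * p)) % kk t

section
variable {t p : ℕ} {τ : ℕ → Bool} {G : ℕ → ℕ}

theorem h_lt {i j : ℕ} (hi : i < p) (hj : j < rr t - 2) :
    nC t p ≤ hBase t p i + j ∧ hBase t p i + j < nC t p + (rr t - 2) * p := by
  have h : (rr t - 2) * (i + 1) ≤ (rr t - 2) * p := Nat.mul_le_mul_left _ hi
  rw [Nat.mul_add, Nat.mul_one] at h
  unfold hBase
  omega

theorem h_div {i j : ℕ} (hj : j < rr t - 2) :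
    (hBase t p i + j - nC t p) / (rr t - 2) = i ∧ (hBase t p i + j - nC t p) % (rr t - 2) = j := by
  have e : hBase t p i + j - nC t p = (rr t - 2) * i + j := by unfold hBase; omega
  have hpos : 0 < rr t - 2 := by omega
  rw [e]
  constructor
  · rw [Nat.mul_add_div hpos, Nat.div_eq_of_lt hj, Nat.add_zero]
  · rw [Nat.mul_add_mod, Nat.mod_eq_of_lt hj]

theorem a_div {g j : ℕ} (hj : j < kk t) :
    (aBase t p g + j - (nC t p + (rr t - 2) * p)) / kk t = g ∧
      (aBase t p g + j - (nC t p + (rr t - 2) * p)) % kk t = j := by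
  have e : aBase t p g + j - (nC t p + (rr t - 2) * p) = kk t * g + j := by unfold aBase; omega
  have hpos : 0 < kk t := by omega
  rw [e]
  constructor
  · rw [Nat.mul_add_div hpos, Nat.div_eq_of_lt hj, Nat.add_zero]
  · rw [Nat.mul_add_mod, Nat.mod_eq_of_lt hj]

theorem lev_c {x : ℕ} (hx : x ≤ t) : lev t p τ G x = (x - rr t) + (rr t - x) := by
  unfold lev; rw [if_pos hx]

theorem lev_el {e : ℕ} (he : e < 2 * p) : lev t p τ G (el t e) = levE t τ e := by
  unfold lev
  have h1 : ¬ el t e ≤ t := by unfold el; omega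
  have h2 : el t e < nC t p := by unfold el nC; omega
  have h3 : el t e - (t + 1) = e := by unfold el; omega
  rw [if_neg h1, if_pos h2, h3]

theorem lev_h {i j : ℕ} (hi : i < p) (hj : j < rr t - 2) :
    lev t p τ G (hBase t p i + j) = if τ (2 * i) = true then 2 + j else rr t - 1 - j := by
  unfold lev
  obtain ⟨h1, h2⟩ := h_lt (t := t) hi hj
  obtain ⟨h3, h4⟩ := h_div (t := t) (p := p) (i := i) hj
  have h0 : t < nC t p := by unfold nC; omega
  rw [if_neg (by omega), if_neg (by omega), if_pos h2, h3, h4]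

theorem lev_a {g j : ℕ} (hj : j < kk t) :
    lev t p τ G (aBase t p g + j) = levE t τ (G g) + 1 + j := by
  unfold lev
  obtain ⟨h3, h4⟩ := a_div (t := t) (p := p) (g := g) hj
  have h0 : t < nC t p := by unfold nC; omega
  have h1 : nC t p + (rr t - 2) * p ≤ aBase t p g := by unfold aBase; omega
  rw [if_neg (by omega), if_neg (by omega), if_neg (by omega), h3, h4]

theorem par_c1 {x : ℕ} (hx : x ≤ t) (h : x < rr t) : par t p τ G x = x + 1 := by
  unfold par; rw [if_pos hx, if_pos h]

theorem par_c2 {x : ℕ} (hx : x ≤ t) (h : ¬ x < rr t) : par t p τ G x = x - 1 := by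
  unfold par; rw [if_pos hx, if_neg h]

theorem par_el {e : ℕ} (he : e < 2 * p) : par t p τ G (el t e) =
    if τ e = true then rr t
     else if rr t = 2 then (if e % 2 = 0 then el t e + 1 else el t e - 1)
     else if e % 2 = 0 then hBase t p (e / 2)
     else hBase t p (e / 2) + (rr t - 3) := by
  unfold par
  have h1 : ¬ el t e ≤ t := by unfold el; omega
  have h2 : el t e < nC t p := by unfold el nC; omega
  have h3 : el t e - (t + 1) = e := by unfold el; omega
  rw [if_neg h1, if_pos h2, h3]

theorem par_h {i j : ℕ} (hi : i < p) (hj : j < rr t - 2) :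
    par t p τ G (hBase t p i + j) = if τ (2 * i) = true then
      (if j = 0 then el t (2 * i) else hBase t p i + j - 1)
      else (if j = rr t - 3 then el t (2 * i + 1) else hBase t p i + j + 1) := by
  unfold par
  obtain ⟨h1, h2⟩ := h_lt (t := t) hi hj
  obtain ⟨h3, h4⟩ := h_div (t := t) (p := p) (i := i) hj
  have h0 : t < nC t p := by unfold nC; omega
  rw [if_neg (by omega), if_neg (by omega), if_pos h2, h3, h4]

theorem par_a {g j : ℕ} (hj : j < kk t) :
    par t p τ G (aBase t p g + j) = if j = 0 then el t (G g) else aBase t p g + j - 1 := by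
  unfold par
  obtain ⟨h3, h4⟩ := a_div (t := t) (p := p) (g := g) hj
  have h0 : t < nC t p := by unfold nC; omega
  have h1 : nC t p + (rr t - 2) * p ≤ aBase t p g := by unfold aBase; omega
  rw [if_neg (by omega), if_neg (by omega), if_neg (by omega), h3, h4]

end

/-- The four kinds of vertices. -/
theorem cases_x {t p l x : ℕ} (hx : x < aBase t p l) :
    x ≤ t ∨ (∃ e < 2 * p, x = el t e) ∨ (∃ i < p, ∃ j < rr t - 2, x = hBase t p i + j) ∨
      ∃ g < l, ∃ j < kk t, x = aBase t p g + j := by
  by_cases h1 : x ≤ t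
  · exact Or.inl h1
  right
  by_cases h2 : x < nC t p
  · left
    refine ⟨x - (t + 1), ?_, ?_⟩
    · unfold nC at h2; omega
    · unfold el; omega
  right
  by_cases h3 : x < nC t p + (rr t - 2) * p
  · left
    have hpos : 0 < rr t - 2 := by
      rcases Nat.eq_zero_or_pos (rr t - 2) with h | h
      · rw [h] at h3; omega
      · exact h
    refine ⟨(x - nC t p) / (rr t - 2), ?_, (x - nC t p) % (rr t - 2), Nat.mod_lt _ hpos, ?_⟩
    · rw [Nat.div_lt_iff_lt_mul hpos, Nat.mul_comm p (rr t - 2)]
      omega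
    · have := Nat.div_add_mod (x - nC t p) (rr t - 2)
      unfold hBase
      omega
  right
  have hpos : 0 < kk t := by have := (kk_le (t := t)).1; omega
  refine ⟨(x - (nC t p + (rr t - 2) * p)) / kk t, ?_,
    (x - (nC t p + (rr t - 2) * p)) % kk t, Nat.mod_lt _ hpos, ?_⟩
  · rw [Nat.div_lt_iff_lt_mul hpos, Nat.mul_comm l (kk t)]
    unfold aBase at hx
    omega
  · have := Nat.div_add_mod (x - (nC t p + (rr t - 2) * p)) (kk t)
    unfold aBase
    omega

/-- `G g` is a true element of the gadget number `g`, or its first element. -/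
def GOk (τ : ℕ → Bool) (gs : List Gad) (G : ℕ → ℕ) : Prop :=
  ∀ i g, gs[i]? = some g →
    (G i = g.2.1 ∨ G i = g.2.2.1 ∨ G i = g.2.2.2) ∧ (g.1 = false → G i = g.2.1) ∧
    (τ (G i) = true ∨ (G i = g.2.1 ∧ τ g.2.2.1 = true ∧ τ g.2.2.2 = true))

theorem exists_G {τ : ℕ → Bool} {gs : List Gad} (h : ∀ g ∈ gs, gadSat τ g) :
    ∃ G, GOk τ gs G := by
  have key : ∀ i : ℕ, ∃ e : ℕ, ∀ g : Gad, gs[i]? = some g →
      (e = g.2.1 ∨ e = g.2.2.1 ∨ e = g.2.2.2) ∧ (g.1 = false → e = g.2.1) ∧
      (τ e = true ∨ (e = g.2.1 ∧ τ g.2.2.1 = true ∧ τ g.2.2.2 = true)) := by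
    intro i
    rcases hg : gs[i]? with _ | g
    · exact ⟨0, fun g hg' => by cases hg'⟩
    · have hm : g ∈ gs := List.mem_of_getElem? hg
      have hs := h g hm
      unfold gadSat at hs
      by_cases hk : g.1 = true
      · rw [if_pos hk] at hs
        rcases hs with hs | hs | hs
        · refine ⟨g.2.1, fun g' h' => ?_⟩
          cases h'
          exact ⟨Or.inl rfl, fun _ => rfl, Or.inl hs⟩
        · refine ⟨g.2.2.1, fun g' h' => ?_⟩
          cases h'
          exact ⟨Or.inr (Or.inl rfl), fun hf => absurd (hk.symm.trans hf) (by decide), Or.inl hs⟩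
        · refine ⟨g.2.2.2, fun g' h' => ?_⟩
          cases h'
          exact ⟨Or.inr (Or.inr rfl), fun hf => absurd (hk.symm.trans hf) (by decide), Or.inl hs⟩
      · rw [if_neg hk] at hs
        refine ⟨g.2.1, fun g' h' => ?_⟩
        cases h'
        refine ⟨Or.inl rfl, fun _ => rfl, ?_⟩
        rcases hs with hs | hs
        · exact Or.inl hs
        · exact Or.inr ⟨rfl, hs.1, hs.2⟩
  choose G hG using key
  exact ⟨G, hG⟩

theorem elts_lt {p : ℕ} {gs : List Gad} (h : POk p gs) {i : ℕ} {g : Gad} (hg : gs[i]? = some g) :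
    g.2.1 < 2 * p ∧ g.2.2.1 < 2 * p ∧ g.2.2.2 < 2 * p := by
  have hm : g ∈ gs := List.mem_of_getElem? hg
  have key : ∀ e, e ∈ [g.2.1, g.2.2.1, g.2.2.2] → e < 2 * p := by
    intro e he
    exact h.2 e (List.mem_flatMap.2 ⟨g, hm, he⟩)
  exact ⟨key _ (by simp), key _ (by simp), key _ (by simp)⟩

theorem idx_lt {gs : List Gad} {i : ℕ} {g : Gad} (hg : gs[i]? = some g) : i < gs.length := by
  rw [List.getElem?_eq_some_iff] at hg
  exact hg.1

theorem idx_ex {gs : List Gad} {i : ℕ} (h : i < gs.length) : ∃ g, gs[i]? = some g :=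
  ⟨gs[i], List.getElem?_eq_getElem h⟩

theorem levE_le {t : ℕ} (ht : 4 ≤ t) {τ : ℕ → Bool} {e : ℕ} : 1 ≤ levE t τ e ∧ levE t τ e ≤ rr t := by
  have := rr_ge ht
  unfold levE
  split_ifs <;> omega

theorem nC_le {t p g : ℕ} : nC t p ≤ aBase t p g := by unfold aBase; omega

theorem a_lt {t p g l j : ℕ} (hg : g < l) (hj : j < kk t) : aBase t p g + j < aBase t p l := by
  have h : kk t * (g + 1) ≤ kk t * l := Nat.mul_le_mul_left _ hg
  rw [Nat.mul_add, Nat.mul_one] at h
  unfold aBase
  omega

theorem hh_lt {t p l i j : ℕ} (hi : i < p) (hj : j < rr t - 2) :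
    hBase t p i + j < aBase t p l := by
  have := (h_lt (t := t) hi hj).2
  unfold aBase
  omega

theorem el_lt {t p l e : ℕ} (he : e < 2 * p) : el t e < aBase t p l := by
  have h := nC_le (t := t) (p := p) (g := l)
  unfold nC at h
  unfold el
  omega

/-- What is used about the parent of `x`. -/
theorem par_spec {t p : ℕ} {gs : List Gad} (ht : 4 ≤ t) (hok : POk p gs) {τ : ℕ → Bool}
    (hτ : ∀ i < p, τ (2 * i + 1) = !(τ (2 * i))) {G : ℕ → ℕ} (hG : GOk τ gs G) {x : ℕ}
    (hx : x < aBase t p gs.length) (hr : x ≠ rr t) :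
    par t p τ G x < aBase t p gs.length ∧ lev t p τ G (par t p τ G x) + 1 = lev t p τ G x ∧
      ((x, par t p τ G x) ∈ coreE t p gs ∨ (par t p τ G x, x) ∈ coreE t p gs) := by
  have r2 := rr_ge ht
  obtain ⟨r3, r4⟩ := rr_le (t := t)
  have hn := nC_le (t := t) (p := p) (g := gs.length)
  have hn' : t < nC t p := by unfold nC; omega
  rcases cases_x hx with h | ⟨e, he, rfl⟩ | ⟨i, hi, j, hj, rfl⟩ | ⟨g, hg, j, hj, rfl⟩
  · by_cases h1 : x < rr t
    · rw [par_c1 h h1, lev_c h, lev_c (by omega)]
      refine ⟨by omega, by omega, Or.inl (mem_coreE.2 (Or.inl ?_))⟩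
      show x < x + 1 ∧ x + 1 < nC t p
      omega
    · rw [par_c2 h h1, lev_c h, lev_c (by omega)]
      refine ⟨by omega, by omega, Or.inr (mem_coreE.2 (Or.inl ?_))⟩
      show x - 1 < x ∧ x < nC t p
      omega
  · rw [par_el he, lev_el he]
    by_cases h1 : τ e = true
    · rw [if_pos h1, lev_c (by omega)]
      refine ⟨by omega, ?_, Or.inr (mem_coreE.2 (Or.inl ?_))⟩
      · unfold levE; rw [if_pos h1]; omega
      · show rr t < el t e ∧ el t e < nC t p
        unfold el nC; omega
    · rw [if_neg h1]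
      have hl : levE t τ e = rr t := by unfold levE; rw [if_neg h1]
      rw [hl]
      have h1' : τ e = false := by simpa using h1
      have hp : e / 2 < p := by omega
      have hτ' := hτ (e / 2) hp
      by_cases h2 : rr t = 2
      · rw [if_pos h2]
        by_cases h3 : e % 2 = 0
        · rw [if_pos h3]
          have e1 : 2 * (e / 2) = e := by omega
          rw [e1, h1'] at hτ'
          have e2 : el t e + 1 = el t (e + 1) := by unfold el; omega
          have hl2 : levE t τ (e + 1) = 1 := by unfold levE; rw [if_pos (by simpa using hτ')]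
          rw [e2, lev_el (by omega), hl2]
          refine ⟨el_lt (by omega), by omega, Or.inl (mem_coreE.2 (Or.inl ?_))⟩
          show el t e < el t (e + 1) ∧ el t (e + 1) < nC t p
          unfold el nC; omega
        · rw [if_neg h3]
          have e1 : 2 * (e / 2) + 1 = e := by omega
          have e3 : 2 * (e / 2) = e - 1 := by omega
          rw [e1, h1', e3] at hτ'
          have e2 : el t e - 1 = el t (e - 1) := by unfold el; omega
          have hl2 : levE t τ (e - 1) = 1 := by
            unfold levE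
            rw [if_pos]
            rcases hb : τ (e - 1) with _ | _
            · rw [hb] at hτ'; cases hτ'
            · rfl
          rw [e2, lev_el (by omega), hl2]
          refine ⟨el_lt (by omega), by omega, Or.inr (mem_coreE.2 (Or.inl ?_))⟩
          show el t (e - 1) < el t e ∧ el t e < nC t p
          unfold el nC; omega
      · rw [if_neg h2]
        by_cases h3 : e % 2 = 0
        · rw [if_pos h3]
          have e1 : 2 * (e / 2) = e := by omega
          have hj : 0 < rr t - 2 := by omega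
          have := lev_h (t := t) (p := p) (τ := τ) (G := G) hp hj
          rw [e1, if_neg h1, Nat.add_zero] at this
          rw [this]
          refine ⟨by simpa using hh_lt (l := gs.length) hp hj, by omega,
            Or.inl (mem_coreE.2 (Or.inr (Or.inl ⟨e / 2, hp, 0, hj, rfl, Or.inl ?_⟩)))⟩
          show el t e = el t (2 * (e / 2))
          rw [e1]
        · rw [if_neg h3]
          have e1 : 2 * (e / 2) + 1 = e := by omega
          rw [e1, h1'] at hτ'
          have hτ2 : τ (2 * (e / 2)) = true := by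
            rcases hb : τ (2 * (e / 2)) with _ | _
            · rw [hb] at hτ'; cases hτ'
            · rfl
          have hj : rr t - 3 < rr t - 2 := by omega
          rw [lev_h hp hj, if_pos hτ2]
          refine ⟨hh_lt (l := gs.length) hp hj, by omega,
            Or.inl (mem_coreE.2 (Or.inr (Or.inl ⟨e / 2, hp, rr t - 3, hj, rfl,
              Or.inr (Or.inl ?_)⟩)))⟩
          show el t e = el t (2 * (e / 2) + 1)
          rw [e1]
  · rw [par_h hi hj, lev_h hi hj]
    have hb := h_lt (t := t) hi hj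
    have hτ' := hτ i hi
    by_cases h1 : τ (2 * i) = true
    · rw [if_pos h1, if_pos h1]
      by_cases h2 : j = 0
      · rw [if_pos h2, lev_el (by omega)]
        have hl2 : levE t τ (2 * i) = 1 := by unfold levE; rw [if_pos h1]
        rw [hl2]
        refine ⟨el_lt (by omega), by omega,
            Or.inr (mem_coreE.2 (Or.inr (Or.inl ⟨i, hi, j, hj, rfl, Or.inl rfl⟩)))⟩
      · rw [if_neg h2]
        have hj' : j - 1 < rr t - 2 := by omega
        have e2 : hBase t p i + j - 1 = hBase t p i + (j - 1) := by omega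
        rw [e2, lev_h hi hj', if_pos h1]
        refine ⟨hh_lt hi hj', by omega,
            Or.inr (mem_coreE.2 (Or.inr (Or.inl ⟨i, hi, j, hj, rfl, Or.inr (Or.inr ?_)⟩)))⟩
        show hBase t p i ≤ hBase t p i + (j - 1) ∧ hBase t p i + (j - 1) < hBase t p i + j
        omega
    · rw [if_neg h1, if_neg h1]
      have h1' : τ (2 * i) = false := by simpa using h1
      rw [h1'] at hτ'
      by_cases h2 : j = rr t - 3
      · rw [if_pos h2, lev_el (by omega)]
        have hl2 : levE t τ (2 * i + 1) = 1 := by unfold levE; rw [if_pos (by simpa using hτ')]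
        rw [hl2]
        refine ⟨el_lt (by omega), by omega,
            Or.inr (mem_coreE.2 (Or.inr (Or.inl ⟨i, hi, j, hj, rfl, Or.inr (Or.inl rfl)⟩)))⟩
      · rw [if_neg h2]
        have hj' : j + 1 < rr t - 2 := by omega
        have e2 : hBase t p i + j + 1 = hBase t p i + (j + 1) := by omega
        rw [e2, lev_h hi hj', if_neg h1]
        refine ⟨hh_lt hi hj', by omega,
            Or.inl (mem_coreE.2 (Or.inr (Or.inl ⟨i, hi, j + 1, hj', rfl, Or.inr (Or.inr ?_)⟩)))⟩
        show hBase t p i ≤ hBase t p i + j ∧ hBase t p i + j < hBase t p i + (j + 1)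
        omega
  · obtain ⟨gg, hgg⟩ := idx_ex hg
    obtain ⟨g1, g2, g3⟩ := hG g gg hgg
    obtain ⟨e1, e2, e3⟩ := elts_lt hok hgg
    have hGl : G g < 2 * p := by rcases g1 with h | h | h <;> omega
    rw [par_a hj, lev_a hj]
    by_cases h2 : j = 0
    · subst h2
      rw [if_pos rfl, lev_el hGl]
      refine ⟨el_lt hGl, by omega,
        Or.inr (mem_coreE.2 (Or.inr (Or.inr ⟨g, gg, hgg, 0, hj, rfl, ?_⟩)))⟩
      show el t (G g) = el t gg.2.1 ∨ el t (G g) = el t gg.2.2.1 ∨ el t (G g) = el t gg.2.2.2 ∨ _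
      rcases g1 with h | h | h
      · rw [h]; exact Or.inl rfl
      · rw [h]; exact Or.inr (Or.inl rfl)
      · rw [h]; exact Or.inr (Or.inr (Or.inl rfl))
    · rw [if_neg h2]
      have hj' : j - 1 < kk t := by omega
      have e2 : aBase t p g + j - 1 = aBase t p g + (j - 1) := by omega
      rw [e2, lev_a hj']
      refine ⟨a_lt hg hj', by omega,
        Or.inr (mem_coreE.2 (Or.inr (Or.inr ⟨g, gg, hgg, j, hj, rfl,
          Or.inr (Or.inr (Or.inr ?_))⟩)))⟩
      show aBase t p g ≤ aBase t p g + (j - 1) ∧ aBase t p g + (j - 1) < aBase t p g + j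
      omega

/-- The parent relation. -/
def R (t p : ℕ) (τ : ℕ → Bool) (G : ℕ → ℕ) (x y : ℕ) : Prop :=
  (x ≠ rr t ∧ y = par t p τ G x) ∨ (y ≠ rr t ∧ x = par t p τ G y)

theorem R_symm {t p : ℕ} {τ : ℕ → Bool} {G : ℕ → ℕ} {x y : ℕ} (h : R t p τ G x y) :
    R t p τ G y x := h.symm

theorem R_h {t p : ℕ} {τ : ℕ → Bool} {G : ℕ → ℕ} {i j : ℕ} (hi : i < p)
    (hj : j + 1 < rr t - 2) :
    R t p τ G (hBase t p i + j) (hBase t p i + (j + 1)) := by
  obtain ⟨r3, r4⟩ := rr_le (t := t)
  have hb := h_lt (t := t) (p := p) (i := i) (j := j) hi (by omega)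
  have hn' : t < nC t p := by unfold nC; omega
  by_cases h1 : τ (2 * i) = true
  · right
    refine ⟨by omega, ?_⟩
    rw [par_h hi hj, if_pos h1, if_neg (by omega)]
    omega
  · left
    refine ⟨by omega, ?_⟩
    rw [par_h hi (by omega), if_neg h1, if_neg (by omega)]
    omega

theorem R_a {t p : ℕ} {τ : ℕ → Bool} {G : ℕ → ℕ} {g j : ℕ} (hj : j + 1 < kk t) :
    R t p τ G (aBase t p g + j) (aBase t p g + (j + 1)) := by
  obtain ⟨r3, r4⟩ := rr_le (t := t)
  have hn' : t < nC t p := by unfold nC; omega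
  have hn := nC_le (t := t) (p := p) (g := g)
  right
  refine ⟨by omega, ?_⟩
  rw [par_a hj, if_neg (by omega)]
  omega

theorem R_a0 {t p : ℕ} {τ : ℕ → Bool} {G : ℕ → ℕ} {g : ℕ} :
    R t p τ G (el t (G g)) (aBase t p g) := by
  obtain ⟨r3, r4⟩ := rr_le (t := t)
  have hn' : t < nC t p := by unfold nC; omega
  have hn := nC_le (t := t) (p := p) (g := g)
  have hk := (kk_le (t := t)).1
  right
  refine ⟨by omega, ?_⟩
  have := par_a (t := t) (p := p) (τ := τ) (G := G) (g := g) (j := 0) (by omega)
  rw [if_pos rfl, Nat.add_zero] at this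
  exact this.symm

theorem R_c {t p : ℕ} {τ : ℕ → Bool} {G : ℕ → ℕ} {j : ℕ} (hj : j < t) :
    R t p τ G j (j + 1) := by
  by_cases h : j < rr t
  · left
    exact ⟨by omega, (par_c1 (by omega) h).symm⟩
  · right
    refine ⟨by omega, ?_⟩
    rw [par_c2 (by omega) (by omega)]
    omega

theorem R_first {t p : ℕ} {τ : ℕ → Bool} {G : ℕ → ℕ} {i : ℕ} (hi : i < p) (hr : 0 < rr t - 2) :
    R t p τ G (el t (2 * i)) (hBase t p i) := by
  obtain ⟨r3, r4⟩ := rr_le (t := t)
  have hb := h_lt (t := t) (p := p) (i := i) (j := 0) hi hr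
  have hn' : t < nC t p := by unfold nC; omega
  by_cases h1 : τ (2 * i) = true
  · right
    refine ⟨by omega, ?_⟩
    have := par_h (t := t) (p := p) (τ := τ) (G := G) (i := i) (j := 0) hi hr
    rw [Nat.add_zero, if_pos h1, if_pos rfl] at this
    exact this.symm
  · left
    refine ⟨by unfold el; omega, ?_⟩
    have := par_el (t := t) (p := p) (τ := τ) (G := G) (e := 2 * i) (by omega)
    rw [if_neg h1, if_neg (by omega), if_pos (by omega)] at this
    rw [this]
    congr 1
    omega

theorem R_last {t p : ℕ} {τ : ℕ → Bool} (hτ : ∀ i < p, τ (2 * i + 1) = !(τ (2 * i)))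
    {G : ℕ → ℕ} {i : ℕ} (hi : i < p) (hr : 0 < rr t - 2) :
    R t p τ G (hBase t p i + (rr t - 3)) (el t (2 * i + 1)) := by
  obtain ⟨r3, r4⟩ := rr_le (t := t)
  have hb := h_lt (t := t) (p := p) (i := i) (j := rr t - 3) hi (by omega)
  have hn' : t < nC t p := by unfold nC; omega
  have hτ' := hτ i hi
  by_cases h1 : τ (2 * i) = true
  · right
    refine ⟨by unfold el; omega, ?_⟩
    rw [h1] at hτ'
    have := par_el (t := t) (p := p) (τ := τ) (G := G) (e := 2 * i + 1) (by omega)
    rw [if_neg (by rw [hτ']; simp), if_neg (by omega), if_neg (by omega)] at this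
    rw [this]
    have e1 : (2 * i + 1) / 2 = i := by omega
    rw [e1]
  · left
    refine ⟨by omega, ?_⟩
    rw [par_h hi (by omega), if_neg h1, if_pos rfl]

theorem R_two {t p : ℕ} {τ : ℕ → Bool} (hτ : ∀ i < p, τ (2 * i + 1) = !(τ (2 * i)))
    {G : ℕ → ℕ} {i : ℕ} (hi : i < p) (hr : rr t = 2) :
    R t p τ G (el t (2 * i)) (el t (2 * i + 1)) := by
  obtain ⟨r3, r4⟩ := rr_le (t := t)
  have hτ' := hτ i hi
  by_cases h1 : τ (2 * i) = true
  · right
    refine ⟨by unfold el; omega, ?_⟩
    rw [h1] at hτ'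
    have := par_el (t := t) (p := p) (τ := τ) (G := G) (e := 2 * i + 1) (by omega)
    rw [if_neg (by rw [hτ']; simp), if_pos (by omega), if_neg (by omega)] at this
    rw [this]
    unfold el
    omega
  · left
    refine ⟨by unfold el; omega, ?_⟩
    have := par_el (t := t) (p := p) (τ := τ) (G := G) (e := 2 * i) (by omega)
    rw [if_neg h1, if_pos hr, if_pos (by omega)] at this
    rw [this]
    unfold el
    omega

/-- The slots of the core are edges of the tree. -/
theorem slot_R {t p : ℕ} {gs : List Gad} (ht : 4 ≤ t) {τ : ℕ → Bool}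
    (hτ : ∀ i < p, τ (2 * i + 1) = !(τ (2 * i))) {G : ℕ → ℕ} (hG : GOk τ gs G) {q : Slot}
    (hq : q ∈ coreS t p gs) : R t p τ G q.2.1.1 q.2.2.1 := by
  have r2 := rr_ge ht
  rcases mem_coreS.1 hq with ⟨j, hj, rfl⟩ | ⟨i, hi, j, hj, rfl⟩ | ⟨i, hi, rfl⟩ |
    ⟨i, g, hg, j, hj, h0, rfl⟩
  · exact R_c hj
  · show R t p τ G (lastEnd (el t (2 * i), false) (hBase t p i) j).1 (hBase t p i + j)
    rw [lastEnd_fst]
    by_cases h : j = 0
    · rw [if_pos h, h]
      exact R_first hi (by omega)
    · rw [if_neg h]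
      obtain ⟨j', rfl⟩ : ∃ j', j = j' + 1 := ⟨j - 1, by omega⟩
      exact R_h hi hj
  · show R t p τ G (lastEnd (el t (2 * i), false) (hBase t p i) (rr t - 2)).1 (el t (2 * i + 1))
    rw [lastEnd_fst]
    by_cases h : rr t - 2 = 0
    · rw [if_pos h]
      exact R_two hτ hi (by omega)
    · rw [if_neg h]
      have e1 : hBase t p i + (rr t - 2) - 1 = hBase t p i + (rr t - 3) := by omega
      rw [e1]
      exact R_last hτ hi (by omega)
  · show R t p τ G (lastEnd (el t g.2.1, true) (aBase t p i) j).1 (aBase t p i + j)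
    rw [lastEnd_fst]
    by_cases h : j = 0
    · rw [if_pos h, h]
      have hk : g.1 = false := by
        rcases hb : g.1 with _ | _
        · rfl
        · exact absurd (h0 hb) (by omega)
      have h1 := (hG i g hg).2.1 hk
      show R t p τ G (el t g.2.1) (aBase t p i + 0)
      rw [← h1]
      exact R_a0
    · rw [if_neg h]
      obtain ⟨j', rfl⟩ : ∃ j', j = j' + 1 := ⟨j - 1, by omega⟩
      exact R_a hj

/-- The levels of the vertices of the big clique. -/
theorem lev_nC {t p : ℕ} (ht : 4 ≤ t) {τ : ℕ → Bool} {G : ℕ → ℕ} {x : ℕ} (h1 : t < x)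
    (h2 : x < nC t p) : lev t p τ G x ≤ rr t := by
  have e1 : x = el t (x - (t + 1)) := by unfold el; omega
  rw [e1, lev_el (by unfold nC at h2; omega)]
  exact (levE_le ht).2

theorem lev_h_le {t p : ℕ} {τ : ℕ → Bool} {G : ℕ → ℕ} {i j : ℕ} (hi : i < p)
    (hj : j < rr t - 2) : lev t p τ G (hBase t p i + j) ≤ rr t := by
  rw [lev_h hi hj]
  split_ifs <;> omega

theorem main (hPT : Pool.Agent.W312.TP.PT) (t p : ℕ) (gs : List Gad) (ht : 4 ≤ t)
    (hok : POk p gs) (hs : PSat p gs) :
    ∃ T : SimpleGraph (Fin (aBase t p gs.length)), T.IsTree ∧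
    (∀ x y : Fin (aBase t p gs.length), T.Adj x y →
      ((x : ℕ), (y : ℕ)) ∈ coreE t p gs ∨ ((y : ℕ), (x : ℕ)) ∈ coreE t p gs) ∧
    (∀ x y : Fin (aBase t p gs.length), ((x : ℕ), (y : ℕ)) ∈ coreE t p gs → T.dist x y ≤ t) ∧
    ∀ q ∈ coreS t p gs, ∀ x y : Fin (aBase t p gs.length),
      (x : ℕ) = q.2.1.1 → (y : ℕ) = q.2.2.1 → T.dist x y ≤ 1 := by
  obtain ⟨τ, hτ, hsat⟩ := hs
  obtain ⟨G, hG⟩ := exists_G hsat
  have r2 := rr_ge ht
  obtain ⟨r3, r4⟩ := rr_le (t := t)
  have rk := rr_kk (t := t)
  obtain ⟨k1, k2⟩ := kk_le (t := t)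
  have hn := nC_le (t := t) (p := p) (g := gs.length)
  have hn' : t < nC t p := by unfold nC; omega
  obtain ⟨T, hT, hadj, hdist⟩ := hPT (aBase t p gs.length) (rr t) (par t p τ G) (lev t p τ G)
    (by omega) (by rw [lev_c (by omega)]; omega)
    (fun x hx hr => ⟨(par_spec ht hok hτ hG hx hr).1, (par_spec ht hok hτ hG hx hr).2.1⟩)
  have hR : ∀ x y : Fin (aBase t p gs.length), R t p τ G x y → T.dist x y ≤ 1 := by
    intro x y h
    rw [SimpleGraph.dist_eq_one_iff_adj.2 ((hadj x y).2 h)]
  refine ⟨T, hT, ?_, ?_, ?_⟩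
  · intro x y h
    rcases (hadj x y).1 h with ⟨h1, h2⟩ | ⟨h1, h2⟩
    · have := (par_spec ht hok hτ hG x.2 h1).2.2
      rw [← h2] at this
      exact this
    · have := (par_spec ht hok hτ hG y.2 h1).2.2
      rw [← h2] at this
      exact this.symm
  · intro x y h
    have h' : ((x : ℕ), (y : ℕ)) ∈ coreE t p gs := h
    have hd := hdist x y
    rcases mem_coreE.1 h' with ⟨h1, h2⟩ | ⟨i, hi, j, hj, h1, h2⟩ | ⟨i, g, hg, j, hj, h1, h2⟩
    · simp only at h1 h2
      by_cases hy : (y : ℕ) ≤ t
      · rw [lev_c hy, lev_c (by omega)] at hd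
        omega
      · have hy' := lev_nC (τ := τ) (G := G) ht (by omega) h2
        by_cases hx : (x : ℕ) ≤ t
        · rw [lev_c hx] at hd
          omega
        · have hx' := lev_nC (p := p) (τ := τ) (G := G) ht (x := (x : ℕ)) (by omega) (by omega)
          omega
    · simp only at h1 h2
      have hy' := lev_h_le (t := t) (τ := τ) (G := G) hi hj
      rw [← h1] at hy'
      have hx' : lev t p τ G x ≤ rr t := by
        rcases h2 with h2 | h2 | ⟨h2, h3⟩
        · rw [h2, lev_el (by omega)]; exact (levE_le ht).2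
        · rw [h2, lev_el (by omega)]; exact (levE_le ht).2
        · have e1 : (x : ℕ) = hBase t p i + ((x : ℕ) - hBase t p i) := by omega
          rw [e1]
          exact lev_h_le hi (by omega)
      omega
    · simp only at h1 h2
      obtain ⟨e1, e2, e3⟩ := elts_lt hok hg
      obtain ⟨g1, g2, g3⟩ := hG i g hg
      have hil := idx_lt hg
      have hlevy : lev t p τ G y = levE t τ (G i) + 1 + j := by rw [h1, lev_a hj]
      rw [hlevy] at hd
      -- new vertices of the same gadget
      rcases (or_assoc.symm.trans or_assoc.symm).symm.symm.1 h2 with h2' | ⟨h2, h3⟩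
      · by_cases hGt : τ (G i) = true
        · have hl1 : levE t τ (G i) = 1 := by unfold levE; rw [if_pos hGt]
          have hx' : lev t p τ G x ≤ rr t := by
            rcases h2' with (h2 | h2) | h2
            · rw [h2, lev_el e1]; exact (levE_le ht).2
            · rw [h2, lev_el e2]; exact (levE_le ht).2
            · rw [h2, lev_el e3]; exact (levE_le ht).2
          omega
        · have hl1 : levE t τ (G i) = rr t := by unfold levE; rw [if_neg hGt]
          rcases g3 with g3 | ⟨g3, g4, g5⟩
          · exact absurd g3 hGt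
          · rcases h2' with (h2 | h2) | h2
            · -- the first element
              have hz : aBase t p i + 0 < aBase t p gs.length := a_lt hil (by omega)
              have d1 : T.dist x ⟨aBase t p i + 0, hz⟩ ≤ 1 := by
                apply hR
                rw [h2, ← g3]
                exact R_a0
              have d2 : T.dist ⟨aBase t p i + 0, hz⟩ y ≤ 1 := by
                by_cases hj0 : j = 0
                · have : y = ⟨aBase t p i + 0, hz⟩ := by
                    apply Fin.ext
                    rw [h1, hj0]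
                  rw [this, SimpleGraph.dist_self]
                  omega
                · apply hR
                  have hj1 : j = 0 + 1 := by omega
                  rw [h1, hj1]
                  exact R_a (by omega)
              have d3 := hT.connected.dist_triangle (u := x) (v := ⟨aBase t p i + 0, hz⟩) (w := y)
              omega
            · have hx' : lev t p τ G x = 1 := by
                rw [h2, lev_el e2]; unfold levE; rw [if_pos g4]
              omega
            · have hx' : lev t p τ G x = 1 := by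
                rw [h2, lev_el e3]; unfold levE; rw [if_pos g5]
              omega
      · have hj1 : j = 0 + 1 := by omega
        have hx0 : (x : ℕ) = aBase t p i + 0 := by omega
        have : T.dist x y ≤ 1 := by
          apply hR
          rw [h1, hx0, hj1]
          exact R_a (by omega)
        omega
  · intro q hq x y hx hy
    have h1 := slot_R ht hτ hG (q := q) hq
    rw [← hx, ← hy] at h1
    exact hR x y h1

/-- Completeness: from a solution to a tree. -/
theorem proof_CPL (hPT : Pool.Agent.W312.TP.PT) : Pool.Agent.W312.TP.CPL := by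
  intro t p gs ht hok hs
  exact main hPT t p gs ht hok hs

end Pool.Agent.W103.TP
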